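import Pool.Agent.N514.NB.Big
import Pool.Agent.N514.NB.NoSemi

/-!
# A nef and big class on a compact Kähler surface without smooth semipositive representative

The surface is `X = C × C`, where `C = Γ \ ℍ` is a compact hyperbolic Riemann surface, and the class
is (proportional to) `3 ω₁ + ω₂ + 2 [Δ]`, normalised so that it has degree `0` on the diagonal `Δ`.
-/

set_option autoImplicit false

open scoped Manifold ContDiff Topology

namespace Pool.Agent.Results.MP_4ff127_gt.NefBigNoSemipositive

open Pool.Agent.N514.NB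

/-- **There is a compact connected complex surface `X` with a Kähler form `κ`, and a closed real
`(1,1)`-form `θ` on `X` whose class is nef and big, such that no smooth closed `(1,1)`-form in the
class of `θ` is semipositive.** -/
theorem result : ∃ (X : Type) (_ : TopologicalSpace X) (_ : ChartedSpace C2 X),
    CompactSpace X ∧ T2Space X ∧ SecondCountableTopology X ∧ ConnectedSpace X ∧
    IsManifold 𝓘(ℂ, C2) ω X ∧
    ∃ κ : ∀ x : X, TangentSpace 𝓘(ℂ, C2) x → ℝ, IsKahlerForm κ ∧
    ∃ θ : ∀ x : X, TangentSpace 𝓘(ℂ, C2) x → ℝ, IsClosedForm θ ∧ IsNef κ θ ∧ IsBig κ θ ∧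
      ∀ θ' : ∀ x : X, TangentSpace 𝓘(ℂ, C2) x → ℝ, IsClosedForm θ' → SameClass θ θ' →
        ¬ ∀ x v, 0 ≤ θ' x v := by
  have := compact_XX
  exact ⟨XX, inferInstance, inferInstance, compact_XX, inferInstance,
    ChartedSpace.secondCountable_of_sigmaCompact C2 XX, connected_XX, inferInstance, dQ Qk,
    isKahlerForm_Qk, dQ (Qf e0), isClosedForm_Qf e0_pos le_rfl, isNef_Qf, isBig_Qf,
    fun _ _ h hpos => no_semi h hpos⟩

end Pool.Agent.Results.MP_4ff127_gt.NefBigNoSemipositive
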